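import Pool.Agent.Helper68.Dom.Main
import Pool.Agent.Helper68.Dom.TOPM
import Pool.Agent.Helper83.Dom.LOWV
import Pool.Agent.Helper86.Dom.BRANCH
import Pool.Agent.Helper71.Dom.MODX
import Pool.Agent.Helper59.Dom.COMPS
import Pool.Agent.Helper57.Dom.SETG
import Pool.Agent.Helper24.Dom.PSETS
import Pool.Agent.Helper5.Dom.TWO
import Pool.Agent.Helper56.Dom.DEG3
import Pool.Agent.Helper7.Dom.CASEA
import Pool.Agent.Helper69.Dom.XCON
import Pool.Agent.Helper70.Dom.LOWN
import Pool.Agent.Helper98.Dom.THIRD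
import Pool.Agent.Helper26.Dom.SING
import Pool.Agent.Helper76.Dom.CASEB
import Pool.Agent.Helper46.Dom.OCTA
import Pool.Agent.Helper88.Dom.FIN
import Pool.Agent.Helper91.Dom.SPAN
import Pool.Agent.Helper64.Dom.KM331
import Pool.Agent.Helper95.Dom.ORD5

/-!
# MP_18808e_co: the minor-minimal non-n-apex graphs with a dominating vertex

For every n ≥ 1 the members of M_n which have a vertex adjacent to all others are exactly the
complete graph on n + 5 vertices and the complete multipartite graph K331 n with parts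
3, 3, 1, ..., 1.
-/

open NApexGraphs NApexGraphs.Dom

theorem Pool.Agent.Results.MP_18808e_co.DominatingVertex.result (n : ℕ) (hn : 1 ≤ n)
    (V : Type) [Finite V] (G : SimpleGraph V) :
    (MinMinimal n G ∧ ∃ u, ∀ v, v ≠ u → G.Adj u v) ↔
      Nonempty (G ≃g (⊤ : SimpleGraph (Fin (n + 5)))) ∨ Nonempty (G ≃g K331 n) := by
  have hT := Helper68.gTOPM
  have hK := Helper64.gKM331
  have hS := Helper91.gSPAN
  have h5 := Helper95.gORD5
  have hP := Helper24.gPSETS
  have h2 := Helper5.gTWO Helper71.gMODX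
  have hD := Helper56.gDEG3 hP h2
  have hL := Helper83.gLOWV Helper68.gLEMD
  constructor
  · rintro ⟨hG, hu⟩
    exact Helper68.dominating Helper57.gSETG (Helper7.gCASEA hP h2 hL)
      (Helper76.gCASEB (Helper69.gXCON hP h2) (Helper59.gCOMPS Helper86.gBRANCH Helper71.gMODX)
        (Helper70.gLOWN hL hD) (Helper98.gTHIRD hP) (Helper26.gSING hP))
      (Helper88.gFIN hD Helper46.gOCTA) hS hT hK h5 n hn V G hG hu
  · rintro (⟨⟨e⟩⟩ | ⟨⟨e⟩⟩)
    · refine ⟨(hT n).of_iso e.symm, e.symm 0, fun v hv => ?_⟩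
      rw [← e.map_adj_iff, e.apply_symm_apply, SimpleGraph.top_adj]
      intro h
      apply hv
      rw [h, e.symm_apply_apply]
    · refine ⟨(hK n).of_iso e.symm, e.symm (Sum.inr (Sum.inr ⟨0, hn⟩)), fun v hv => ?_⟩
      rw [← e.map_adj_iff, e.apply_symm_apply]
      refine ⟨fun h => hv ?_, ?_, ?_⟩
      · rw [h, e.symm_apply_apply]
      · simp
      · simp
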