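import Pool.Agent.Helper68.Fam.Final

/-!
# MP_18808e_co: the nabla-Y families of K_(n+5) and K_(3,3,1^n)

For every n ≥ 1 all graphs obtained from the complete graph K_(n+5) or from the complete
multipartite graph K331 n by replacing pairwise edge-disjoint triangles by Ys are minor-minimal
non-n-apex. For n ≥ 3 the whole family of K_(n+5), and for n ≥ 4 the whole family of K331 n (closed
under nabla-Y moves and inverse nabla-Y moves) consists of minor-minimal non-n-apex graphs.
-/

open NApexGraphs NApexGraphs.Dom NApexGraphs.Fam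

theorem Pool.Agent.Results.MP_18808e_co.NablaYFamilies.result (n : ℕ) (hn : 1 ≤ n) :
    (∀ F : Finset (Finset (Fin (n + 5))), Tri (⊤ : SimpleGraph (Fin (n + 5))) F →
      MinMinimal n (YG (⊤ : SimpleGraph (Fin (n + 5))) F)) ∧
    (∀ F : Finset (Finset (Fin 3 ⊕ Fin 3 ⊕ Fin n)), Tri (K331 n) F →
      MinMinimal n (YG (K331 n) F)) ∧
    (3 ≤ n → ∀ (V : Type) (G : SimpleGraph V), Family (⊤ : SimpleGraph (Fin (n + 5))) G →
      MinMinimal n G) ∧
    (4 ≤ n → ∀ (V : Type) (G : SimpleGraph V), Family (K331 n) G → MinMinimal n G) :=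
  ⟨fun F hF => Helper68.final.1 n F hn hF, fun F hF => Helper68.final.2.1 n F hn hF,
    fun h V G hG => Helper68.family_top Helper68.final.1 Helper68.final.2.2 n h V G hG,
    fun h V G hG => Helper68.family_K331 Helper68.final.2.1 Helper68.final.2.2 n h V G hG⟩
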