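import Pool.Agent.Helper68.Dom.Main
import Pool.Agent.Helper68.Dom.TOPM
import Pool.Agent.Helper46.Dom.OCTA
import Pool.Agent.Helper85.Dom.PATH4
import Pool.Agent.Helper91.Dom.SPAN
import Pool.Agent.Helper64.Dom.KM331
import Pool.Agent.Helper39.Dom.KMY
import Pool.Agent.Helper95.Dom.ORD5
import Pool.Agent.Helper14.Dom.ORD6

/-!
# MP_18808e_co: the minor-minimal non-n-apex graphs with at most n + 6 vertices

For every n ≥ 1 the members of M_n with at most n + 6 vertices are the complete graph on n + 5
vertices, the complete multipartite graph K331 n with parts 3, 3, 1, ..., 1 and KY n, which is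
obtained from the complete graph on n + 5 vertices by one ∇Y move.
-/

open NApexGraphs NApexGraphs.Dom

theorem Pool.Agent.Results.MP_18808e_co.SmallOrder.result (n : ℕ) (hn : 1 ≤ n)
    (V : Type) [Finite V] (G : SimpleGraph V) :
    (MinMinimal n G ∧ Nat.card V ≤ n + 6) ↔
      Nonempty (G ≃g (⊤ : SimpleGraph (Fin (n + 5)))) ∨ Nonempty (G ≃g K331 n) ∨
        Nonempty (G ≃g KY n) := by
  have hT := Helper68.gTOPM
  have hK := Helper64.gKM331
  have hY := Helper39.gKMY
  have hS := Helper91.gSPAN
  have h5 := Helper95.gORD5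
  constructor
  · rintro ⟨hG, hc⟩
    exact Helper68.small_order h5
      (Helper14.gORD6 Helper46.gOCTA Helper85.gPATH4 hS hT hK hY) n hn V G hG hc
  · rintro (⟨⟨e⟩⟩ | ⟨⟨e⟩⟩ | ⟨⟨e⟩⟩)
    · refine ⟨(hT n).of_iso e.symm, ?_⟩
      rw [Nat.card_congr e.toEquiv, Nat.card_eq_fintype_card, Fintype.card_fin]
      omega
    · refine ⟨(hK n).of_iso e.symm, ?_⟩
      rw [Nat.card_congr e.toEquiv, Nat.card_eq_fintype_card]
      simp only [Fintype.card_sum, Fintype.card_fin]
      omega
    · refine ⟨(hY n hn).of_iso e.symm, ?_⟩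
      rw [Nat.card_congr e.toEquiv, Nat.card_eq_fintype_card]
      simp only [Fintype.card_option, Fintype.card_fin]
      omega
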