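import Pool.Agent.Helper58.Apex.TripleCount

/-!
# MP_18808e_co: 2^(c n^3) minor-minimal non-n-apex graphs, obtained by gluing Kuratowski graphs

Take n + 3 terminals, and glue to every triple T of terminals a copy of K5 or K33 along three of
its vertices, in one of the five possible ways (`Glue`), leaving out the edges between terminals.
Whatever way is chosen for each of the triples, the result is a minor-minimal non-n-apex graph,
and up to isomorphism there are at least 5 ^ C(n+3,3) / (n+3)! such graphs.
-/

open NApexGraphs

theorem Pool.Agent.Results.MP_18808e_co.TripleGluings.result (n : ℕ) (hn : 1 ≤ n) :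
    (∀ t : Triple (n + 3) → Glue, MinMinimal n (tripleGraph (n + 3) t)) ∧
    ∃ (N : ℕ) (t : Fin N → (Triple (n + 3) → Glue)),
      5 ^ ((n + 3).choose 3) ≤ N * (n + 3).factorial ∧
      ∀ i j, i ≠ j → IsEmpty (tripleGraph (n + 3) (t i) ≃g tripleGraph (n + 3) (t j)) :=
  ⟨fun t => triple_mem hn t, many (by omega)⟩
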